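import Pool.Agent.N574.GrowthMain

/-! Polynomial vertex growth is undecidable. -/

set_option autoImplicit false

namespace Pool.Agent.Results.MP_4873f0_lc.Undecidable

open Pool.Agent.N574.Growth

theorem result : ∃ n m : ℕ,
    (∀ W : ℕ → Prop, REPred W → ∃ f : ℕ → Instance, Computable f ∧
      ∀ a, (f a).Valid ∧ (f a).Integral ∧ (f a).1 = n ∧ (f a).2.length = m ∧
        (W a ↔ PolyGrowth (f a).mats) ∧
        (¬ W a → ∃ v : Fin (f a).1 → ℝ, ∀ k, 2 ^ (k - 1) ≤ vertices (f a).mats v k)) ∧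
    (¬ ∃ alg : Instance → Bool, Computable alg ∧ ∀ x : Instance, x.Valid → x.Integral →
      x.1 = n → x.2.length = m → (alg x = true ↔ PolyGrowth x.mats)) ∧
    ¬ ComputablePred (fun x : Instance => x.Valid ∧ PolyGrowth x.mats) :=
  Pool.Agent.N574.PV.main

end Pool.Agent.Results.MP_4873f0_lc.Undecidable
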